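import Pool.Agent.H50En.Defs

/-! Derivatives of volumes and of inverse Cayley–Menger matrices (packages B1, B3, B4). -/

namespace Pool.Agent.H9En

open Real Finset Pool.Agent.H50En

variable {V : Type} [DecidableEq V]

theorem CM_symm (z : Sym2 V → ℝ) (s : Finset V) : (CM z s).transpose = CM z s := by
  ext a b
  rcases a with _ | a <;> rcases b with _ | b
  · rfl
  · rfl
  · rfl
  · simp only [Matrix.transpose_apply, CM, Matrix.of_apply]
    rw [Sym2.eq_swap]
    by_cases h : a = b
    · rw [if_pos h, if_pos h.symm]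
    · rw [if_neg h, if_neg fun h' => h h'.symm]

theorem inv_symm (z : Sym2 V → ℝ) (s : Finset V) (a b : Option s) :
    (CM z s)⁻¹ a b = (CM z s)⁻¹ b a := by
  have h := Matrix.transpose_nonsing_inv (CM z s)
  rw [CM_symm] at h
  calc (CM z s)⁻¹ a b = ((CM z s)⁻¹).transpose b a := rfl
    _ = (CM z s)⁻¹ b a := by rw [h]

/-- B1 -/
theorem Q_symm (z : Sym2 V → ℝ) (s : Finset V) (k l : V) : Q z s k l = Q z s l k := by
  unfold Q
  by_cases h : k ∈ s ∧ l ∈ s
  · rw [dif_pos h, dif_pos ⟨h.2, h.1⟩, inv_symm]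
  · rw [dif_neg h, dif_neg fun h' => h ⟨h'.2, h'.1⟩]

theorem Q_eq (z : Sym2 V → ℝ) {s : Finset V} (k l : s) :
    Q z s k l = (CM z s)⁻¹ (some k) (some l) := by
  unfold Q
  rw [dif_pos ⟨k.2, l.2⟩]

/-- a sum over the rows -/
theorem sum_mul_none {z : Sym2 V → ℝ} {s : Finset V} (N : Matrix (Option s) (Option s) ℝ)
    (a : Option s) : ∑ l : s, N a (some l) = (N * CM z s) a none := by
  rw [Matrix.mul_apply, Fintype.sum_option]
  have h0 : CM z s none none = 0 := rfl
  rw [h0, mul_zero, zero_add]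
  refine Finset.sum_congr rfl fun l _ => ?_
  have h1 : CM z s (some l) none = 1 := rfl
  rw [h1, mul_one]

/-- B1 -/
theorem Q_sum {z : Sym2 V → ℝ} {s : Finset V} (hD : (CM z s).det ≠ 0) {k : V} (hk : k ∈ s) :
    ∑ l ∈ s, Q z s k l = 0 := by
  rw [← Finset.sum_coe_sort]
  have h1 : ∑ l : s, Q z s k l = ∑ l : s, (CM z s)⁻¹ (some ⟨k, hk⟩) (some l) :=
    Finset.sum_congr rfl fun l _ => Q_eq z ⟨k, hk⟩ l
  rw [h1, sum_mul_none, Matrix.nonsing_inv_mul _ (isUnit_iff_ne_zero.2 hD), Matrix.one_apply_ne]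
  exact Option.some_ne_none _

/-- the direction of the edge `e` -/
noncomputable def El (s : Finset V) (e : Sym2 V) : Matrix (Option s) (Option s) ℝ :=
  Matrix.of fun a b => match a, b with
    | none, _ => 0
    | some _, none => 0
    | some i, some j => if i ≠ j ∧ s(i.1, j.1) = e then 1 else 0

theorem CM_update (z : Sym2 V → ℝ) (s : Finset V) (e : Sym2 V) (u : ℝ) :
    CM (Function.update z e u) s = CM z s + (u - z e) • El s e := by
  ext a b
  rcases a with _ | a <;> rcases b with _ | b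
  · simp [CM, El]
  · simp [CM, El]
  · simp [CM, El]
  · simp only [CM, El, Matrix.add_apply, Matrix.smul_apply, Matrix.of_apply, smul_eq_mul]
    by_cases h : a = b
    · simp [h]
    · rw [if_neg h, if_neg h]
      by_cases h2 : s(a.1, b.1) = e
      · rw [if_pos ⟨h, h2⟩, h2, Function.update_self]
        ring
      · rw [if_neg fun h3 => h2 h3.2, Function.update_of_ne h2]
        ring

/-- derivative of the determinant -/
theorem det_deriv {z : Sym2 V → ℝ} {s : Finset V} (hD : (CM z s).det ≠ 0) (e : Sym2 V) :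
    HasDerivAt (fun u => (CM (Function.update z e u) s).det)
      ((CM z s).det * ((CM z s)⁻¹ * El s e).trace) (z e) := by
  have h1 : ∀ u, (CM (Function.update z e u) s).det = (CM z s).det *
      (1 + ((CM z s)⁻¹ * El s e).trace * (u - z e) +
        ((Matrix.det (1 + (Polynomial.X : Polynomial ℝ) •
          ((CM z s)⁻¹ * El s e).map Polynomial.C)).divX.divX).eval (u - z e) * (u - z e) ^ 2) := by
    intro u
    rw [← Matrix.det_one_add_smul, ← Matrix.det_mul, CM_update, mul_add, mul_one,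
      mul_smul_comm, Matrix.mul_nonsing_inv_cancel_left _ _ (isUnit_iff_ne_zero.2 hD)]
  generalize (Matrix.det (1 + (Polynomial.X : Polynomial ℝ) •
          ((CM z s)⁻¹ * El s e).map Polynomial.C)).divX.divX = P at h1
  generalize ((CM z s)⁻¹ * El s e).trace = τ at h1 ⊢
  have h2 : HasDerivAt (fun u : ℝ => u - z e) 1 (z e) := (hasDerivAt_id _).sub_const _
  have h3 : HasDerivAt (fun u : ℝ => P.eval (u - z e)) (P.derivative.eval (z e - z e) * 1) (z e) :=
    HasDerivAt.comp (h₂ := fun x => P.eval x) (h := fun u : ℝ => u - z e) (z e)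
      (P.hasDerivAt (z e - z e)) h2
  have h4 := (((h2.const_mul τ).const_add 1).add (h3.mul (h2.pow 2))).const_mul (CM z s).det
  have h5 : (fun u => (CM (Function.update z e u) s).det) = fun u => (CM z s).det *
      (1 + τ * (u - z e) + P.eval (u - z e) * (u - z e) ^ 2) := funext h1
  rw [h5]
  refine h4.congr_deriv ?_
  rw [sub_self]
  simp

/-- B3: derivative of the volume. -/
theorem vol_deriv {z : Sym2 V → ℝ} {s : Finset V} (hD : (CM z s).det ≠ 0) {x y : V} (hx : x ∈ s)
    (hy : y ∈ s) (hxy : x ≠ y) :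
    HasDerivAt (fun u => vol (Function.update z s(x, y) u) s) (vol z s * Q z s x y)
      (z s(x, y)) := by
  have hE : El s s(x, y) = Matrix.single (some ⟨x, hx⟩) (some ⟨y, hy⟩) 1 +
      Matrix.single (some ⟨y, hy⟩) (some ⟨x, hx⟩) 1 := by
    ext a b
    rcases a with _ | a <;> rcases b with _ | b
    · simp [El, Matrix.single]
    · simp [El, Matrix.single]
    · simp [El, Matrix.single]
    · simp only [El, Matrix.add_apply, Matrix.of_apply, Matrix.single, Option.some.injEq]
      obtain ⟨a, ha⟩ := a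
      obtain ⟨b, hb⟩ := b
      simp only [Subtype.mk.injEq, ne_eq, Sym2.eq_iff]
      by_cases h1 : a = x ∧ b = y
      · obtain ⟨rfl, rfl⟩ := h1
        simp [hxy, hxy.symm]
      · by_cases h2 : a = y ∧ b = x
        · obtain ⟨rfl, rfl⟩ := h2
          simp [hxy, hxy.symm]
        · rw [if_neg, if_neg fun h => h1 ⟨h.1.symm, h.2.symm⟩,
            if_neg fun h => h2 ⟨h.1.symm, h.2.symm⟩, add_zero]
          rintro ⟨-, h | h⟩
          · exact h1 h
          · exact h2 h
  have htr : ((CM z s)⁻¹ * El s s(x, y)).trace = 2 * Q z s x y := by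
    rw [hE, mul_add, Matrix.trace_add, Matrix.trace_mul_single, Matrix.trace_mul_single]
    have h1 := Q_eq z (⟨x, hx⟩ : s) ⟨y, hy⟩
    have h2 := Q_eq z (⟨y, hy⟩ : s) ⟨x, hx⟩
    have h3 := Q_symm z s x y
    simp only [MulOpposite.op_one, one_smul]
    simp only at h1 h2
    rw [← h1, ← h2, ← h3]
    ring
  have h1 := det_deriv hD s(x, y)
  rw [htr] at h1
  set c : ℝ := 2 ^ (#s - 1) * ((#s - 1).factorial : ℝ) ^ 2 with hc
  have hcpos : 0 < c := by positivity
  have hup : CM (Function.update z s(x, y) (z s(x, y))) s = CM z s := by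
    rw [Function.update_eq_self]
  have h2 : HasDerivAt (fun u => |(CM (Function.update z s(x, y) u) s).det|)
      (|(CM z s).det| * (2 * Q z s x y)) (z s(x, y)) := by
    rcases lt_or_gt_of_ne hD with h | h
    · have h3 := h1.neg
      rw [abs_of_neg h]
      have h4 : ∀ᶠ u in nhds (z s(x, y)), (CM (Function.update z s(x, y) u) s).det < 0 := by
        apply h1.continuousAt.eventually_lt continuousAt_const
        rw [hup]; exact h
      refine (h3.congr_of_eventuallyEq (h4.mono fun u hu => ?_)).congr_deriv (by ring)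
      exact abs_of_neg hu
    · rw [abs_of_pos h]
      have h4 : ∀ᶠ u in nhds (z s(x, y)), 0 < (CM (Function.update z s(x, y) u) s).det := by
        apply continuousAt_const.eventually_lt h1.continuousAt
        rw [hup]; exact h
      exact h1.congr_of_eventuallyEq (h4.mono fun u hu => abs_of_pos hu)
  have hpos : 0 < |(CM z s).det| / c := div_pos (abs_pos.2 hD) hcpos
  have h3 := (h2.div_const c).sqrt (by rw [hup]; exact hpos.ne')
  refine h3.congr_deriv ?_
  rw [hup]
  have e : vol z s = √(|(CM z s).det| / c) := rfl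
  rw [e]
  have h5 := Real.mul_self_sqrt hpos.le
  have h6 : √(|(CM z s).det| / c) ≠ 0 := (Real.sqrt_pos.2 hpos).ne'
  field_simp
  rw [sq, h5]
  field_simp

open scoped Matrix.Norms.Operator in
/-- derivative of the inverse -/
theorem inv_deriv {z : Sym2 V → ℝ} {T : Finset V} (hD : (CM z T).det ≠ 0) (e : Sym2 V)
    (a b : Option T) :
    HasDerivAt (fun u => (CM (Function.update z e u) T)⁻¹ a b)
      ((-((CM z T)⁻¹ * El T e * (CM z T)⁻¹)) a b) (z e) := by
  have hu : IsUnit (CM z T) := (Matrix.isUnit_iff_isUnit_det _).2 (isUnit_iff_ne_zero.2 hD)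
  obtain ⟨U, hU⟩ := hu
  have h1 : HasDerivAt (fun u => CM (Function.update z e u) T) (El T e) (z e) := by
    have h2 : HasDerivAt (fun u : ℝ => u - z e) 1 (z e) := (hasDerivAt_id _).sub_const _
    have h3 := (h2.smul_const (El T e)).const_add (CM z T)
    have h4 : (fun u => CM (Function.update z e u) T) = fun u =>
      CM z T + (u - z e) • El T e := funext fun u => CM_update z T e u
    rw [h4]
    exact h3.congr_deriv (one_smul _ _)
  have h2 := hasFDerivAt_ringInverse (𝕜 := ℝ) U
  have hup : CM (Function.update z e (z e)) T = U := by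
    rw [Function.update_eq_self, hU]
  have h3 := HasFDerivAt.comp_hasDerivAt (l := Ring.inverse)
    (f := fun u => CM (Function.update z e u) T) (z e) (by rw [hup]; exact h2) h1
  have hUi : ((U⁻¹ : (Matrix (Option T) (Option T) ℝ)ˣ) : Matrix (Option T) (Option T) ℝ) =
      (CM z T)⁻¹ := by
    rw [← hU, Matrix.coe_units_inv]
  have h5 : HasDerivAt (fun u => (CM (Function.update z e u) T)⁻¹)
      (-((CM z T)⁻¹ * El T e * (CM z T)⁻¹)) (z e) := by
    have e1 : (fun u => (CM (Function.update z e u) T)⁻¹) =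
        Ring.inverse ∘ fun u => CM (Function.update z e u) T :=
      funext fun u => Matrix.nonsing_inv_eq_ringInverse _
    rw [e1]
    refine h3.congr_deriv ?_
    rw [← hUi]
    rfl
  exact (hasDerivAt_pi.1 (hasDerivAt_pi.1 h5 a) b)

/-- B4: differentiability of the inverse. -/
theorem Q_deriv {z : Sym2 V → ℝ} {T : Finset V} (hD : (CM z T).det ≠ 0) (e : Sym2 V) :
    ∃ P' : V → V → ℝ, (∀ k ∈ T, ∀ l ∈ T,
      HasDerivAt (fun u => Q (Function.update z e u) T k l) (P' k l) (z e)) ∧
      ∀ k ∈ T, ∑ l ∈ T, P' k l = 0 := by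
  classical
  refine ⟨fun k l => if h : k ∈ T ∧ l ∈ T then
    (-((CM z T)⁻¹ * El T e * (CM z T)⁻¹)) (some ⟨k, h.1⟩) (some ⟨l, h.2⟩) else 0, ?_, ?_⟩
  · intro k hk l hl
    beta_reduce
    rw [dif_pos (And.intro hk hl : k ∈ T ∧ l ∈ T)]
    have h1 := inv_deriv hD e (some ⟨k, hk⟩) (some ⟨l, hl⟩)
    refine h1.congr_of_eventuallyEq (Filter.Eventually.of_forall fun u => ?_)
    simp only [Q]
    rw [dif_pos (And.intro hk hl : k ∈ T ∧ l ∈ T)]
  · intro k hk
    rw [← Finset.sum_coe_sort]
    have h1 : ∑ l : T, (if h : k ∈ T ∧ (l : V) ∈ T then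
        (-((CM z T)⁻¹ * El T e * (CM z T)⁻¹)) (some ⟨k, h.1⟩) (some ⟨l, h.2⟩) else 0) =
        ∑ l : T, (-((CM z T)⁻¹ * El T e * (CM z T)⁻¹)) (some ⟨k, hk⟩) (some l) :=
      Finset.sum_congr rfl fun l _ => by rw [dif_pos ⟨hk, l.2⟩]
    rw [h1, sum_mul_none, neg_mul, mul_assoc,
      Matrix.nonsing_inv_mul _ (isUnit_iff_ne_zero.2 hD), mul_one, Matrix.neg_apply,
      Matrix.mul_apply]
    rw [neg_eq_zero]
    refine Finset.sum_eq_zero fun b _ => ?_
    have : El T e b none = 0 := by cases b <;> rfl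
    rw [this, mul_zero]

end Pool.Agent.H9En
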